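import Pool.Agent.LLR.Cls

/-!
# Sign patterns of length 5 of Liouville's function
-/

set_option autoImplicit false

open Finset

namespace Pool.Agent.Results.MP_52aa73_nt.SignPatternWeights

open Pool.Agent.LSP Pool.Agent.LLR

/-- group C -/
def GC : List (Fin 5 → ℤ) :=
  [![1, 1, 1, 1, 1], ![1, -1, 1, -1, 1], ![1, -1, -1, 1, 1], ![1, 1, -1, -1, 1]]

/-- group D -/
def GD : List (Fin 5 → ℤ) :=
  [![1, -1, 1, 1, 1], ![1, 1, -1, 1, 1], ![1, -1, -1, -1, 1], ![1, 1, 1, -1, 1]]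

open Classical in
/-- the sum of `1 / n` over the `1 ≤ n ≤ Z` at which `e` or `-e` occurs -/
noncomputable def wt (e : Fin 5 → ℤ) (Z : ℕ) : ℝ :=
  ∑ n ∈ (Icc 1 Z).filter (fun n => OccPM e n), 1 / (n : ℝ)

private theorem wt_eq {e : Fin 5 → ℤ} (he : ∀ m, e m = 1 ∨ e m = -1) (Z : ℕ) : wt e Z = S (code e) Z := by
  unfold wt S
  rw [sum_filter]
  refine sum_congr rfl fun n _ => ?_
  by_cases h : OccPM e n
  · rw [if_pos h, if_pos ((occPM_iff he n).1 h)]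
  · rw [if_neg h, if_neg fun h' => h ((occPM_iff he n).2 h'), zero_div]

private theorem mem_grp {e : Fin 5 → ℤ} (he : ∀ m, e m = 1 ∨ e m = -1) :
    (code e ∈ [0, 5, 10, 15] ∧ (e ∈ GC ∨ -e ∈ GC)) ∨ (code e ∈ [3, 6, 9, 12] ∧ (e ∈ GD ∨ -e ∈ GD)) ∨
      code e ∈ [1, 7, 8, 14, 2, 11, 4, 13] := by
  have h : e = ![e 0, e 1, e 2, e 3, e 4] := by
    funext i
    fin_cases i <;> rfl
  rcases he 0 with h0 | h0 <;> rcases he 1 with h1 | h1 <;> rcases he 2 with h2 | h2 <;>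
    rcases he 3 with h3 | h3 <;> rcases he 4 with h4 | h4 <;>
    (rw [h0, h1, h2, h3, h4] at h; subst h; decide)

private theorem code_neg (e : Fin 5 → ℤ) : code (-e) = code e := by
  simp [code]

private theorem pick (Z : ℕ) (h1 : ¬ (Low Z 3 ∧ Low Z 6 ∧ Low Z 9)) (h2 : ¬ (Low Z 6 ∧ Low Z 9 ∧ Low Z 12))
    (h3 : ¬ (Low Z 3 ∧ Low Z 6 ∧ Low Z 12)) (h4 : ¬ (Low Z 3 ∧ Low Z 9 ∧ Low Z 12)) :
    ∃ G : List (Fin 5 → ℤ), G ⊆ GD ∧ G.length = 2 ∧ ∀ g ∈ GD, g ∈ G ∨ ¬ Low Z (code g) := by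
  have four : ∀ G : List (Fin 5 → ℤ), (![1, -1, 1, 1, 1] ∈ G ∨ ¬ Low Z 3) →
      (![1, 1, -1, 1, 1] ∈ G ∨ ¬ Low Z 6) → (![1, -1, -1, -1, 1] ∈ G ∨ ¬ Low Z 9) →
      (![1, 1, 1, -1, 1] ∈ G ∨ ¬ Low Z 12) → ∀ g ∈ GD, g ∈ G ∨ ¬ Low Z (code g) := by
    intro G a3 a6 a9 a12
    exact List.forall_mem_cons.2 ⟨a3, List.forall_mem_cons.2 ⟨a6, List.forall_mem_cons.2 ⟨a9,
      List.forall_mem_cons.2 ⟨a12, fun g h => absurd h List.not_mem_nil⟩⟩⟩⟩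
  by_cases r3 : Low Z 3
  · by_cases r6 : Low Z 6
    · exact ⟨[![1, -1, 1, 1, 1], ![1, 1, -1, 1, 1]], by simp [GD], rfl,
        four _ (Or.inl (by simp)) (Or.inl (by simp)) (Or.inr fun h => h1 ⟨r3, r6, h⟩)
          (Or.inr fun h => h3 ⟨r3, r6, h⟩)⟩
    · by_cases r9 : Low Z 9
      · exact ⟨[![1, -1, 1, 1, 1], ![1, -1, -1, -1, 1]], by simp [GD], rfl,
          four _ (Or.inl (by simp)) (Or.inr r6) (Or.inl (by simp)) (Or.inr fun h => h4 ⟨r3, r9, h⟩)⟩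
      · exact ⟨[![1, -1, 1, 1, 1], ![1, 1, 1, -1, 1]], by simp [GD], rfl,
          four _ (Or.inl (by simp)) (Or.inr r6) (Or.inr r9) (Or.inl (by simp))⟩
  · by_cases r6 : Low Z 6
    · by_cases r9 : Low Z 9
      · exact ⟨[![1, 1, -1, 1, 1], ![1, -1, -1, -1, 1]], by simp [GD], rfl,
          four _ (Or.inr r3) (Or.inl (by simp)) (Or.inl (by simp)) (Or.inr fun h => h2 ⟨r6, r9, h⟩)⟩
      · exact ⟨[![1, 1, -1, 1, 1], ![1, 1, 1, -1, 1]], by simp [GD], rfl,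
          four _ (Or.inr r3) (Or.inl (by simp)) (Or.inr r9) (Or.inl (by simp))⟩
    · exact ⟨[![1, -1, -1, -1, 1], ![1, 1, 1, -1, 1]], by simp [GD], rfl,
        four _ (Or.inr r3) (Or.inr r6) (Or.inl (by simp)) (Or.inl (by simp))⟩

/-- For every large `Z` there is an exceptional set `G`, either `GC` or two patterns of `GD`, such that every
pattern outside `G` and `-G` has weight at least `log Z / 120000` up to `Z`; every pattern outside `GC`, `GD`,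
`-GC`, `-GD` has weight at least `log Z / 2200`. -/
theorem result : ∃ Z0 : ℕ, ∀ Z : ℕ, Z0 ≤ Z →
    ∃ G : List (Fin 5 → ℤ), (G = GC ∨ (G ⊆ GD ∧ G.length = 2)) ∧
      ∀ e : Fin 5 → ℤ, (∀ m, e m = 1 ∨ e m = -1) →
        (e ∉ G → -e ∉ G → Real.log Z / 120000 ≤ wt e Z) ∧
        (e ∉ GC ++ GD → -e ∉ GC ++ GD → Real.log Z / 2200 ≤ wt e Z) := by
  obtain ⟨Z0, h⟩ := Filter.eventually_atTop.1 all_cert
  refine ⟨Z0, fun Z hZ => ?_⟩
  obtain ⟨hlog, hone, htwo, n1, n2, n3, n4⟩ := h Z hZ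
  have h120 : Real.log Z / 120000 ≤ Real.log Z / 2200 := by
    rw [div_le_div_iff₀ (by norm_num) (by norm_num)]
    nlinarith
  suffices key : ∃ G : List (Fin 5 → ℤ), (G = GC ∨ (G ⊆ GD ∧ G.length = 2)) ∧
      ∀ e : Fin 5 → ℤ, (∀ m, e m = 1 ∨ e m = -1) → e ∉ G → -e ∉ G → ¬ Low Z (code e) by
    obtain ⟨G, hG, hk⟩ := key
    refine ⟨G, hG, fun e he => ⟨fun h1 h2 => ?_, fun h1 h2 => ?_⟩⟩
    · rw [wt_eq he]
      exact not_lt.1 (hk e he h1 h2)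
    · rw [wt_eq he]
      rw [List.mem_append, not_or] at h1 h2
      rcases mem_grp he with h3 | h3 | h3
      · exact absurd h3.2 (not_or.2 ⟨h1.1, h2.1⟩)
      · exact absurd h3.2 (not_or.2 ⟨h1.2, h2.2⟩)
      · exact hone _ h3
  by_cases hex : ∃ a ∈ [0, 5, 10, 15], Low Z a
  · obtain ⟨a, ha, hla⟩ := hex
    refine ⟨GC, Or.inl rfl, fun e he h1 h2 hl => ?_⟩
    rcases mem_grp he with h3 | h3 | h3
    · exact absurd h3.2 (not_or.2 ⟨h1, h2⟩)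
    · exact htwo a ha _ h3.1 ⟨hla, hl⟩
    · exact absurd (h120.trans (hone _ h3)) (not_le.2 hl)
  · obtain ⟨G, hG1, hG2, hG3⟩ := pick Z n1 n2 n3 n4
    refine ⟨G, Or.inr ⟨hG1, hG2⟩, fun e he h1 h2 hl => ?_⟩
    rcases mem_grp he with h3 | h3 | h3
    · exact hex ⟨_, h3.1, hl⟩
    · rcases h3.2 with h4 | h4
      · exact (hG3 e h4).elim h1 fun h5 => h5 hl
      · refine (hG3 (-e) h4).elim h2 fun h5 => h5 ?_
        rwa [code_neg]
    · exact absurd (h120.trans (hone _ h3)) (not_le.2 hl)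

end Pool.Agent.Results.MP_52aa73_nt.SignPatternWeights
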